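import Mathlib
import Pool.Agent.H755R4.Main
import Pool.Agent.H755R4.SU1

/-!
Primitive solutions of `x ^ p + y ^ q = z ^ r` with `r < p`, for each single value of `y` or of `z`
and almost all values of the other, all exponents at once.
-/

namespace Pool.Agent.Results.MP_5585eb_nt.SmallTopExponent

open Filter Topology Pool.Agent.H755R4 Pool.Agent.H374R2

/-- `v` and `w` are, in some order, the bases `y` and `z` of a primitive solution of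
`x ^ p + y ^ q = z ^ r` in positive integers with `r < p` (the condition `1/p + 1/q + 1/r < 1` is not
imposed) -/
def Occur (v w : ℕ) : Prop := ∃ x y z p q r : ℕ, 1 ≤ p ∧ 1 ≤ q ∧ 1 ≤ r ∧ 0 < x ∧ 0 < y ∧ 0 < z ∧
  Nat.gcd (Nat.gcd x y) z = 1 ∧ x ^ p + y ^ q = z ^ r ∧ r < p ∧
  ((y = v ∧ z = w) ∨ (y = w ∧ z = v))

theorem cop {x y z p q r : ℕ} (h : Nat.gcd (Nat.gcd x y) z = 1)
    (heq : x ^ p + y ^ q = z ^ r) (hq : 1 ≤ q) (hr : 1 ≤ r) :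
    Nat.Coprime y z := by
  rw [Nat.coprime_iff_gcd_eq_one]
  by_contra hne
  obtain ⟨ℓ, hℓ, hd⟩ := Nat.exists_prime_and_dvd hne
  have h1 : ℓ ∣ y := hd.trans (Nat.gcd_dvd_left _ _)
  have h2 : ℓ ∣ z := hd.trans (Nat.gcd_dvd_right _ _)
  have h3 : ℓ ∣ x ^ p := by
    rw [← Nat.dvd_add_left (dvd_pow h1 (by omega : q ≠ 0)), heq]
    exact dvd_pow h2 (by omega)
  have h4 : ℓ ∣ x := hℓ.dvd_of_dvd_pow h3
  have h5 := Nat.dvd_gcd (Nat.dvd_gcd h4 h1) h2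
  rw [h] at h5
  exact hℓ.one_lt.ne' (Nat.dvd_one.mp h5)

/-- small exponents -/
theorem small_count (Z N w : ℕ) (hZ : 2 ≤ Z) (hN : 1 ≤ N) (hw : w ≤ N) :
    {v : ℕ | v ∈ Set.Icc 1 N ∧ ∃ x p q r : ℕ, 1 ≤ q ∧ 1 ≤ r ∧ r < p ∧ p ≤ Z ∧ 0 < x ∧
      ((x ^ p + w ^ q = v ^ r ∧ 0 < w) ∨ x ^ p + v ^ q = w ^ r)}.Finite ∧
    (({v : ℕ | v ∈ Set.Icc 1 N ∧ ∃ x p q r : ℕ, 1 ≤ q ∧ 1 ≤ r ∧ r < p ∧ p ≤ Z ∧ 0 < x ∧
      ((x ^ p + w ^ q = v ^ r ∧ 0 < w) ∨ x ^ p + v ^ q = w ^ r)}.ncard : ℕ) : ℝ) ≤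
      2 * ((Z : ℝ) + 1) ^ 3 * (((Nat.log 2 N + 1 : ℕ) : ℝ) * (N : ℝ) ^ (1 - 1 / (Z : ℝ))) := by
  classical
  have hNR : (1 : ℝ) ≤ N := by exact_mod_cast hN
  have hN0 : (0 : ℝ) < N := by linarith
  have hZR : (2 : ℝ) ≤ Z := by exact_mod_cast hZ
  set E : ℕ := Nat.log 2 N + 1 with hE
  have hNE : N < 2 ^ E := Nat.lt_pow_succ_log_self (by norm_num) N
  have hE1 : 1 ≤ E := by omega
  set M : ℕ := ⌊(N : ℝ) ^ (1 - 1 / (Z : ℝ))⌋₊ with hM
  have hMle : (M : ℝ) ≤ (N : ℝ) ^ (1 - 1 / (Z : ℝ)) := Nat.floor_le (by positivity)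
  -- bound for the exponent of a base at least two, and replacement of the exponent otherwise
  have hexp : ∀ y q r : ℕ, 0 < y → 1 ≤ q → r ≤ Z → y ^ q < N ^ r →
      ∃ q' : ℕ, 1 ≤ q' ∧ q' ≤ Z * E ∧ y ^ q' = y ^ q := by
    intro y q r hy hq hr hlt
    by_cases hy1 : y = 1
    · exact ⟨1, le_rfl, Nat.mul_pos (by omega) hE1, by rw [hy1]; simp⟩
    · refine ⟨q, hq, ?_, rfl⟩
      have h2 : 2 ^ q ≤ y ^ q := Nat.pow_le_pow_left (by omega) q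
      have h3 : N ^ r ≤ (2 ^ E) ^ Z := by
        calc N ^ r ≤ N ^ Z := Nat.pow_le_pow_right hN hr
          _ ≤ (2 ^ E) ^ Z := Nat.pow_le_pow_left hNE.le Z
      rw [← pow_mul] at h3
      have h4 : 2 ^ q < 2 ^ (E * Z) := by omega
      have h5 := (Nat.pow_lt_pow_iff_right (by norm_num : 1 < 2)).mp h4
      rw [mul_comm] at h5
      omega
  set J : Finset (ℕ × ℕ × ℕ × ℕ × Bool) := Finset.range (Z + 1) ×ˢ Finset.range (Z + 1) ×ˢ
    Finset.range (Z * E + 1) ×ˢ Finset.Icc 1 M ×ˢ Finset.univ with hJ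
  have hJc : J.card = (Z + 1) * ((Z + 1) * ((Z * E + 1) * (M * 2))) := by
    rw [hJ]
    simp only [Finset.card_product, Finset.card_range, Nat.card_Icc, Nat.add_sub_cancel,
      Finset.card_univ, Fintype.card_bool]
  have h := SU.coverG (K := 1) J (fun j => {v : ℕ | 0 < j.2.1 ∧ 0 < j.2.2.1 ∧
    (if j.2.2.2.2 then j.2.2.2.1 ^ j.1 + w ^ j.2.2.1 = v ^ j.2.1 else
      j.2.2.2.1 ^ j.1 + v ^ j.2.2.1 = w ^ j.2.1)}) (by
    rintro ⟨p, r, q, x, s⟩ _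
    have hsub : {v : ℕ | 0 < r ∧ 0 < q ∧ (if s then x ^ p + w ^ q = v ^ r else
        x ^ p + v ^ q = w ^ r)}.Subsingleton := by
      rintro v ⟨hr, hq, h1⟩ v' ⟨_, _, h2⟩
      cases s
      · simp only [Bool.false_eq_true, if_false] at h1 h2
        exact Nat.pow_left_injective hq.ne' (by show v ^ q = v' ^ q; omega)
      · simp only [if_true] at h1 h2
        exact Nat.pow_left_injective hr.ne' (by show v ^ r = v' ^ r; omega)
    exact ⟨hsub.finite, (Set.ncard_le_one hsub.finite).mpr fun a ha b hb => hsub ha hb⟩)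
    {v : ℕ | v ∈ Set.Icc 1 N ∧ ∃ x p q r : ℕ, 1 ≤ q ∧ 1 ≤ r ∧ r < p ∧ p ≤ Z ∧ 0 < x ∧
      ((x ^ p + w ^ q = v ^ r ∧ 0 < w) ∨ x ^ p + v ^ q = w ^ r)} (by
    rintro v ⟨⟨hv1, hvN⟩, x, p, q, r, hq, hr, hrp, hpZ, hx, h⟩
    have hvr : v ^ r ≤ N ^ r := Nat.pow_le_pow_left hvN r
    have hwr : w ^ r ≤ N ^ r := Nat.pow_le_pow_left hw r
    have hx0 : 0 < x ^ p := pow_pos hx p
    have hxM : x ≤ M := by
      apply Nat.le_floor
      have h1 : x ^ p ≤ N ^ r := by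
        rcases h with ⟨h, _⟩ | h <;> omega
      have h2 : (x : ℝ) ^ p ≤ (N : ℝ) ^ r := by exact_mod_cast h1
      have hp0 : 0 < p := by omega
      have hpR : (0 : ℝ) < p := by exact_mod_cast hp0
      have h3 : (x : ℝ) ≤ (N : ℝ) ^ ((r : ℝ) / p) := by
        have h4 : ((x : ℝ) ^ p) ^ (1 / (p : ℝ)) = x := by
          rw [← Real.rpow_natCast, ← Real.rpow_mul (Nat.cast_nonneg x),
            mul_one_div_cancel hpR.ne', Real.rpow_one]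
        have h5 : ((N : ℝ) ^ r) ^ (1 / (p : ℝ)) = (N : ℝ) ^ ((r : ℝ) / p) := by
          rw [← Real.rpow_natCast, ← Real.rpow_mul hN0.le]
          congr 1
          ring
        rw [← h4, ← h5]
        exact Real.rpow_le_rpow (by positivity) h2 (by positivity)
      refine h3.trans (Real.rpow_le_rpow_of_exponent_le hNR ?_)
      have h6 : (p : ℝ) ≤ Z := by exact_mod_cast hpZ
      have h7 : 1 / (Z : ℝ) ≤ 1 / (p : ℝ) := one_div_le_one_div_of_le hpR h6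
      have h8 : (r : ℝ) + 1 ≤ p := by exact_mod_cast hrp
      have h9 : (r : ℝ) / p ≤ 1 - 1 / (p : ℝ) := by
        rw [div_le_iff₀ hpR, sub_mul, one_mul, one_div_mul_cancel hpR.ne']
        linarith
      linarith
    rcases h with ⟨h, hw0⟩ | h
    · obtain ⟨q', hq1, hq2, hq3⟩ := hexp w q r hw0 hq (by omega) (by omega)
      refine ⟨(p, r, q', x, true), ?_, (by show 0 < r; omega), (by show 0 < q'; omega), ?_⟩
      · rw [hJ]
        simp only [Finset.mem_product, Finset.mem_range, Finset.mem_Icc, Finset.mem_univ, and_true]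
        omega
      · simp only [if_true]
        rw [hq3]
        exact h
    · obtain ⟨q', hq1, hq2, hq3⟩ := hexp v q r (by omega) hq (by omega) (by omega)
      refine ⟨(p, r, q', x, false), ?_, (by show 0 < r; omega), (by show 0 < q'; omega), ?_⟩
      · rw [hJ]
        simp only [Finset.mem_product, Finset.mem_range, Finset.mem_Icc, Finset.mem_univ, and_true]
        omega
      · simp only [Bool.false_eq_true, if_false]
        rw [hq3]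
        exact h)
  refine ⟨h.1, ?_⟩
  have h2 := h.2
  rw [hJc, mul_one] at h2
  have h3 : (({v : ℕ | v ∈ Set.Icc 1 N ∧ ∃ x p q r : ℕ, 1 ≤ q ∧ 1 ≤ r ∧ r < p ∧ p ≤ Z ∧ 0 < x ∧
      ((x ^ p + w ^ q = v ^ r ∧ 0 < w) ∨ x ^ p + v ^ q = w ^ r)}.ncard : ℕ) : ℝ) ≤
      ((Z : ℝ) + 1) * (((Z : ℝ) + 1) * (((Z : ℝ) * E + 1) * (M * 2))) := by exact_mod_cast h2
  have hER : (1 : ℝ) ≤ E := by exact_mod_cast hE1
  have h4 : (Z : ℝ) * E + 1 ≤ ((Z : ℝ) + 1) * E := by linarith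
  calc _ ≤ ((Z : ℝ) + 1) * (((Z : ℝ) + 1) * (((Z : ℝ) * E + 1) * (M * 2))) := h3
    _ ≤ ((Z : ℝ) + 1) * (((Z : ℝ) + 1) * ((((Z : ℝ) + 1) * E) *
          ((N : ℝ) ^ (1 - 1 / (Z : ℝ)) * 2))) := by gcongr
    _ = _ := by ring

/-- For every `ε > 0` there is `c > 0` such that for all large `N` there is a set `T` of at most
`ε N` integers of `[1, N]` with the following property: for every `w ≤ N` there are at most
`N ^ (1 - c)` integers `v` of `[1, N]` outside `T` such that `v` and `w` are, in some order, the bases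
`y` and `z` of a primitive solution of `x ^ p + y ^ q = z ^ r` with `r < p`. -/
theorem result (ε : ℝ) (hε : 0 < ε) : ∃ c : ℝ, 0 < c ∧ ∃ N₀ : ℕ, ∀ N : ℕ, N₀ ≤ N →
    ∃ T : Set ℕ, T ⊆ Set.Icc 1 N ∧ (T.ncard : ℝ) ≤ ε * N ∧ ∀ w : ℕ, w ≤ N →
      (({v : ℕ | v ∈ Set.Icc 1 N ∧ v ∉ T ∧ Occur v w}.ncard : ℕ) : ℝ) ≤ (N : ℝ) ^ (1 - c) := by
  classical
  set δ : ℝ := min ε (1 / 2) with hδ
  have hδ0 : 0 < δ := lt_min hε (by norm_num)
  have hδ1 : δ < 1 := lt_of_le_of_lt (min_le_right _ _) (by norm_num)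
  obtain ⟨Z₀, L, hcore⟩ := core 1 le_rfl hδ0 hδ1
  set Z : ℕ := max Z₀ 2 with hZ
  have hZ2 : 2 ≤ Z := le_max_right _ _
  have hZ0 : Z₀ ≤ Z := le_max_left _ _
  have hZR : (2 : ℝ) ≤ Z := by exact_mod_cast hZ2
  have hZinv : 1 / (Z : ℝ) ≤ 1 / 2 := one_div_le_one_div_of_le (by norm_num) hZR
  have hZpos : 0 < 1 / (Z : ℝ) := by positivity
  have ht := Gc.log_pow_le (k := 1) (show (0 : ℝ) < 1 / (2 * (Z : ℝ)) by positivity)
    (show (0 : ℝ) < 7 * ((Z : ℝ) + 1) ^ 3 by positivity)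
  obtain ⟨N₁, hN₁⟩ := eventually_atTop.mp ht
  refine ⟨1 / (2 * (Z : ℝ)), by positivity, max L (max N₁ 3), fun N hN => ?_⟩
  simp only [max_le_iff] at hN
  obtain ⟨g1, g2, g3⟩ := hN
  have hNR : (1 : ℝ) ≤ N := by exact_mod_cast (by omega : 1 ≤ N)
  have hN0 : (0 : ℝ) < N := by linarith
  have hlog1 : 1 ≤ Real.log N := by
    rw [Real.le_log_iff_exp_le hN0]
    have h1 := Real.exp_one_lt_d9
    have h2 : (3 : ℝ) ≤ N := by exact_mod_cast g3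
    linarith
  have hElog : ((Nat.log 2 N + 1 : ℕ) : ℝ) ≤ 3 * Real.log N := by
    have e1 : (2 : ℝ) ^ (Nat.log 2 N) ≤ N := by exact_mod_cast Nat.pow_log_le_self 2 (by omega)
    have e2 := Real.log_le_log (by positivity) e1
    rw [Real.log_pow] at e2
    have e3 := Real.log_two_gt_d9
    have e4 : (Nat.log 2 N : ℝ) * (1 / 2) ≤ Nat.log 2 N * Real.log 2 := by
      apply mul_le_mul_of_nonneg_left _ (by positivity)
      linarith
    push_cast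
    linarith
  obtain ⟨T, hT1, hT2, hT3⟩ := hcore N N 0 g1 (by omega) (by rw [pow_one])
  rw [zero_add] at hT1 hT3
  have hIoc : Set.Ioc 0 N = Set.Icc 1 N := by
    ext v
    simp only [Set.mem_Ioc, Set.mem_Icc]
    omega
  rw [hIoc] at hT1 hT3
  refine ⟨T, hT1, hT2.trans ?_, fun w hw => ?_⟩
  · exact mul_le_mul_of_nonneg_right (min_le_left _ _) hN0.le
  by_cases hw0 : w = 0
  · have : {v : ℕ | v ∈ Set.Icc 1 N ∧ v ∉ T ∧ Occur v w} = ∅ := by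
      ext v
      simp only [Set.mem_ofPred_eq, Set.mem_empty_iff_false, iff_false]
      rintro ⟨_, _, x, y, z, p, q, r, _, _, _, _, hy, hz, _, _, _, h | h⟩ <;> omega
    rw [this, Set.ncard_empty]
    push_cast
    positivity
  obtain ⟨hf, hs⟩ := small_count Z N w hZ2 (by omega) hw
  have hb := hT3 w (by omega) hw
  set A1 : Set ℕ := {v : ℕ | v ∈ Set.Icc 1 N ∧ ∃ x p q r : ℕ, 1 ≤ q ∧ 1 ≤ r ∧ r < p ∧ p ≤ Z ∧
      0 < x ∧ ((x ^ p + w ^ q = v ^ r ∧ 0 < w) ∨ x ^ p + v ^ q = w ^ r)} with hA1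
  set A2 : Set ℕ := {B : ℕ | B ∈ Set.Icc 1 N ∧ B ∉ T ∧ Nat.Coprime w B ∧ Sol Z₀ w B} with hA2
  have hA2f : A2.Finite := (Set.finite_Icc 1 N).subset (fun B hB => hB.1)
  have hsub : {v : ℕ | v ∈ Set.Icc 1 N ∧ v ∉ T ∧ Occur v w} ⊆ A1 ∪ A2 := by
    rintro v ⟨hv, hvT, x, y, z, p, q, r, hp, hq, hr, hx, hy, hz, hg, heq, hrp, hyz⟩
    have hc := cop hg heq hq hr
    rcases hyz with ⟨rfl, rfl⟩ | ⟨rfl, rfl⟩
    · by_cases hpZ : p ≤ Z
      · exact Or.inl ⟨hv, x, p, q, r, hq, hr, hrp, hpZ, hx, Or.inr heq⟩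
      · refine Or.inr ⟨hv, hvT, hc.symm, r, q, p, x, hr, hq, by omega, hx, Or.inr (Or.inr ?_)⟩
        rw [← heq]; ring
    · by_cases hpZ : p ≤ Z
      · exact Or.inl ⟨hv, x, p, q, r, hq, hr, hrp, hpZ, hx, Or.inl ⟨heq, hy⟩⟩
      · refine Or.inr ⟨hv, hvT, hc, q, r, p, x, hq, hr, by omega, hx, Or.inr (Or.inl ?_)⟩
        rw [← heq]; ring
  have h1 := (Set.ncard_le_ncard hsub (hf.union hA2f)).trans (Set.ncard_union_le A1 A2)
  have h2 : (({v : ℕ | v ∈ Set.Icc 1 N ∧ v ∉ T ∧ Occur v w}.ncard : ℕ) : ℝ) ≤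
      A1.ncard + A2.ncard := by exact_mod_cast h1
  set X : ℝ := (N : ℝ) ^ (1 - 1 / (Z : ℝ)) with hX
  have hXpos : 0 < X := Real.rpow_pos_of_pos hN0 _
  have h3 : (N : ℝ) ^ δ ≤ X := by
    apply Real.rpow_le_rpow_of_exponent_le hNR
    have : δ ≤ 1 / 2 := min_le_right _ _
    linarith
  have h4 := hN₁ N g2
  rw [pow_one] at h4
  have h5 : (1 : ℝ) ≤ ((Z : ℝ) + 1) ^ 3 := one_le_pow₀ (by linarith)
  have h6 : 2 * ((Z : ℝ) + 1) ^ 3 * (((Nat.log 2 N + 1 : ℕ) : ℝ) * X) ≤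
      2 * ((Z : ℝ) + 1) ^ 3 * ((3 * Real.log N) * X) := by gcongr
  have h7 : (1 : ℝ) ≤ ((Z : ℝ) + 1) ^ 3 * Real.log N := by nlinarith
  calc (({v : ℕ | v ∈ Set.Icc 1 N ∧ v ∉ T ∧ Occur v w}.ncard : ℕ) : ℝ) ≤ _ := h2
    _ ≤ 2 * ((Z : ℝ) + 1) ^ 3 * ((3 * Real.log N) * X) + 1 * X := by linarith
    _ ≤ 2 * ((Z : ℝ) + 1) ^ 3 * ((3 * Real.log N) * X) + (((Z : ℝ) + 1) ^ 3 * Real.log N) * X := by
        gcongr
    _ = (7 * ((Z : ℝ) + 1) ^ 3 * Real.log N) * X := by ring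
    _ ≤ (N : ℝ) ^ (1 / (2 * (Z : ℝ))) * X := by gcongr
    _ = (N : ℝ) ^ (1 - 1 / (2 * (Z : ℝ))) := by
        rw [hX, ← Real.rpow_add hN0]
        congr 1
        field_simp
        ring

end Pool.Agent.Results.MP_5585eb_nt.SmallTopExponent
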